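import Mathlib

set_option autoImplicit false

/-!
Type clones of canonical polymorphisms never explain the tractability of structures which contain a
linear order: if a reduct `Γ` of a homogeneous structure `Δ` in a finite relational language has a
relation that is a strict linear order, then all its type clones preserve a ternary relation whose
constraint satisfaction problem is not-all-equal satisfiability.  The constraint satisfaction
problem of `Γ = (ℚ; <)` is the problem whether a finite directed graph has no directed cycle.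
-/

namespace Pool.Agent.Results.MP_436c39_lc.LinearOrderReducts

open FirstOrder FirstOrder.Language Set

section Definitions

variable (L : FirstOrder.Language.{0, 0}) {D : Type} [L.Structure D] {n : ℕ} (c : Fin n → D)

/-- The tuples `a` and `b` have the same type over the constants `c`: some automorphism of the
structure that fixes the entries of `c` maps `a` to `b`. -/
def SameType {m : ℕ} (a b : Fin m → D) : Prop :=
  ∃ g : D ≃[L] D, (∀ j, g (c j) = c j) ∧ ∀ i, g (a i) = b i

/-- Having the same type is an equivalence relation. -/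
def typeSetoid (m : ℕ) : Setoid (Fin m → D) where
  r := SameType L c
  iseqv := by
    refine ⟨fun a => ⟨FirstOrder.Language.Equiv.refl L D, fun _ => rfl, fun _ => rfl⟩, ?_, ?_⟩
    · rintro a b ⟨g, h1, h2⟩
      refine ⟨g.symm, fun j => ?_, fun i => ?_⟩
      · have := g.symm_apply_apply (c j)
        rwa [h1 j] at this
      · have := g.symm_apply_apply (a i)
        rwa [h2 i] at this
    · rintro a b d ⟨g, h1, h2⟩ ⟨g', h1', h2'⟩
      refine ⟨g'.comp g, fun j => ?_, fun i => ?_⟩
      · show g' (g (c j)) = c j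
        rw [h1, h1']
      · show g' (g (a i)) = d i
        rw [h2, h2']

/-- The types of `m`-tuples over the constants `c`. -/
abbrev Types (m : ℕ) : Type := Quotient (typeSetoid L c m)

/-- The type of a tuple. -/
def tp {m : ℕ} (a : Fin m → D) : Types L c m := Quotient.mk (typeSetoid L c m) a

/-- The operation `f` of arity `k` is canonical: the type of the tuple obtained by applying `f`
componentwise to `k` tuples depends only on the types of these tuples. -/
def Canonical {k : ℕ} (f : (Fin k → D) → D) : Prop :=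
  ∀ (m : ℕ) (a b : Fin k → Fin m → D), (∀ j, SameType L c (a j) (b j)) →
    SameType L c (fun i => f fun j => a j i) (fun i => f fun j => b j i)

/-- The operation `f` preserves the relation `R`. -/
def Preserves {E : Type} {k r : ℕ} (f : (Fin k → E) → E) (R : Set (Fin r → E)) : Prop :=
  ∀ t : Fin k → Fin r → E, (∀ j, t j ∈ R) → (fun i => f fun j => t j i) ∈ R

/-- A set of relations on `D`, each of which is first-order definable without parameters. -/
def IsReduct (Γ : Set (Σ r : ℕ, Set (Fin r → D))) : Prop :=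
  ∀ R ∈ Γ, (∅ : Set D).Definable L R.2

/-- The type clone of `Γ` on the `m`-types over `c`: the operations induced by the canonical
polymorphisms of `Γ`. -/
def TypeClone (Γ : Set (Σ r : ℕ, Set (Fin r → D))) (m k : ℕ) :
    Set ((Fin k → Types L c m) → Types L c m) :=
  {φ | ∃ f : (Fin k → D) → D, Canonical L c f ∧ (∀ R ∈ Γ, Preserves f R.2) ∧
    ∀ a : Fin k → Fin m → D, (φ fun j => tp L c (a j)) = tp L c fun i => f fun j => a j i}

end Definitions

/-- The truth values `x`, `y`, `z` are not all equal. -/
def NAE (x y z : Bool) : Prop := ¬ (x = y ∧ y = z)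

/-- There are finitely many `m`-types over `c`, and the type clone of `Γ` on them preserves a
ternary relation `R` whose constraint satisfaction problem is not-all-equal satisfiability: for all
sets `C` of triples of variables from `V`, there is an assignment of types to the variables for
which all triples in `C` are in `R` if and only if there is an assignment of truth values for which
no triple in `C` is constant. -/
def PreservesHardRelation (L : FirstOrder.Language.{0, 0}) {D : Type} [L.Structure D] {n : ℕ}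
    (c : Fin n → D) (Γ : Set (Σ r : ℕ, Set (Fin r → D))) (m : ℕ) : Prop :=
  Finite (Types L c m) ∧ ∃ R : Set (Fin 3 → Types L c m),
    (∀ k, ∀ φ ∈ TypeClone L c Γ m k, Preserves φ R) ∧
    ∀ (V : Type) (C : Set (Fin 3 → V)),
      (∃ s : V → Types L c m, ∀ t ∈ C, (fun x => s (t x)) ∈ R) ↔
        ∃ s : V → Bool, ∀ t ∈ C, NAE (s (t 0)) (s (t 1)) (s (t 2))

section Proof

variable {L : FirstOrder.Language.{0, 0}} {D : Type} [L.Structure D]

theorem definable_inv {r : ℕ} {R : Set (Fin r → D)} (h : (∅ : Set D).Definable L R)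
    (g : D ≃[L] D) (t : Fin r → D) : (fun i => g (t i)) ∈ R ↔ t ∈ R := by
  obtain ⟨φ, rfl⟩ := Set.empty_definable_iff.1 h
  exact FirstOrder.Language.StrongHomClass.realize_formula g φ (v := t)

theorem exists_auto [L.IsRelational] (hD : L.IsUltrahomogeneous D) {X : Type} [Finite X]
    (w w' : X → D) (h1 : ∀ x y, w x = w y ↔ w' x = w' y)
    (h2 : ∀ (k : ℕ) (R : L.Relations k) (v : Fin k → X),
      Structure.RelMap R (w ∘ v) ↔ Structure.RelMap R (w' ∘ v)) :
    ∃ g : D ≃[L] D, ∀ x, g (w x) = w' x := by
  classical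
  let S : L.Substructure D := Substructure.closure L (range w)
  have hS : ∀ z : S, ∃ x, w x = z.1 := by
    rintro ⟨z, hz⟩
    have h3 : z ∈ range w := (Substructure.mem_closure_iff_of_isRelational L _ z).1 hz
    exact h3
  choose p hp using hS
  have hinj : Function.Injective fun z : S => w' (p z) := by
    intro z z' h
    have h3 := (h1 _ _).2 h
    rw [hp, hp] at h3
    exact Subtype.ext h3
  let f : S ↪[L] D :=
    { toFun := fun z => w' (p z)
      inj' := hinj
      map_fun' := fun {k} F => isEmptyElim F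
      map_rel' := by
        intro k R t
        have h3 := h2 k R (fun j => p (t j))
        have h4 : (w ∘ fun j => p (t j)) = fun j => (t j : D) := by
          funext j
          exact hp (t j)
        rw [h4] at h3
        exact h3.symm }
  obtain ⟨g, hg⟩ := hD S (Substructure.fg_closure (finite_range w)) f
  refine ⟨g, fun x => ?_⟩
  have hx : w x ∈ S := Substructure.subset_closure ⟨x, rfl⟩
  have h3 : f ⟨w x, hx⟩ = g (w x) := by
    rw [hg]
    rfl
  rw [← h3]
  show w' (p ⟨w x, hx⟩) = w' x
  rw [← h1]
  exact hp ⟨w x, hx⟩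

theorem finite_types [L.IsRelational] [Finite (Σ k, L.Relations k)]
    (hD : L.IsUltrahomogeneous D) {n : ℕ} (c : Fin n → D) (m : ℕ) : Finite (Types L c m) := by
  classical
  let diag : (Fin m → D) → (Set ((Fin n ⊕ Fin m) × (Fin n ⊕ Fin m))) ×
      ((s : Σ k, L.Relations k) → Set (Fin s.1 → Fin n ⊕ Fin m)) := fun a =>
    ({q | Sum.elim c a q.1 = Sum.elim c a q.2}, fun s => {v | Structure.RelMap s.2 (Sum.elim c a ∘ v)})
  refine Finite.of_injective (fun q : Types L c m => diag (Quotient.out q)) ?_
  intro q q' h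
  have h1 := congrArg Prod.fst h
  have h2 := congrArg Prod.snd h
  obtain ⟨g, hg⟩ := exists_auto hD (Sum.elim c (Quotient.out q)) (Sum.elim c (Quotient.out q'))
    (fun x y => by
      have := Set.ext_iff.1 h1 (x, y)
      exact this)
    (fun k R v => by
      have := Set.ext_iff.1 (congrFun h2 ⟨k, R⟩) v
      exact this)
  rw [← Quotient.out_eq q, ← Quotient.out_eq q']
  refine Quotient.sound (s := typeSetoid L c m) ⟨g, fun j => hg (Sum.inl j), fun i => hg (Sum.inr i)⟩

/-- Ramsey's theorem for triangles. -/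
theorem triangle {K : Type} [Finite K] (col : ℕ → ℕ → K) :
    ∃ i j k, i < j ∧ j < k ∧ col i j = col i k ∧ col i j = col j k := by
  let U : Ultrafilter ℕ := Filter.hyperfilter ℕ
  have hU : ∀ n : ℕ, ∀ᶠ j in (U : Filter ℕ), n < j := by
    intro n
    have h1 : {j | ¬ n < j}.Finite := by
      refine (finite_Iic n).subset fun j hj => ?_
      exact not_lt.1 hj
    have h2 := Filter.compl_mem_hyperfilter_of_finite h1
    filter_upwards [h2] with j hj
    by_contra h3
    exact hj h3
  have h1 : ∀ i, ∃ a, ∀ᶠ j in (U : Filter ℕ), col i j = a := by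
    intro i
    obtain ⟨a, ha⟩ := (U.map (col i)).eq_pure_of_finite
    refine ⟨a, ?_⟩
    have h2 : ({a} : Set K) ∈ U.map (col i) := by
      rw [ha]
      exact Ultrafilter.mem_pure.2 rfl
    exact h2
  choose a ha using h1
  obtain ⟨b, hb⟩ := (U.map a).eq_pure_of_finite
  have hb' : ∀ᶠ i in (U : Filter ℕ), a i = b := by
    have h2 : ({b} : Set K) ∈ U.map a := by
      rw [hb]
      exact Ultrafilter.mem_pure.2 rfl
    exact h2
  obtain ⟨i, hi⟩ := hb'.exists
  obtain ⟨j, hj1, hj2, hj3⟩ := ((hU i).and (hb'.and (ha i))).exists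
  obtain ⟨k, hk1, hk2, hk3⟩ := ((hU j).and ((ha i).and (ha j))).exists
  exact ⟨i, j, k, hj1, hk1, by rw [hj3, hk2], by rw [hj3, hk3, hi, hj2]⟩

variable {n : ℕ} {c : Fin n → D} {lt : D → D → Prop}

/-- Some automorphism that fixes the constants maps `x` to `x'` and `y` to `y'`. -/
def SamePair (L : FirstOrder.Language.{0, 0}) [L.Structure D] (c : Fin n → D) (x y x' y' : D) : Prop :=
  ∃ g : D ≃[L] D, (∀ j, g (c j) = c j) ∧ g x = x' ∧ g y = y'

theorem SamePair.swap {x y x' y' : D} (h : SamePair L c x y x' y') : SamePair L c y x y' x' := by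
  obtain ⟨g, h1, h2, h3⟩ := h
  exact ⟨g, h1, h3, h2⟩

theorem SamePair.symm {x y x' y' : D} (h : SamePair L c x y x' y') : SamePair L c x' y' x y := by
  obtain ⟨g, h1, h2, h3⟩ := h
  refine ⟨g.symm, fun j => ?_, ?_, ?_⟩
  · have := g.symm_apply_apply (c j)
    rwa [h1 j] at this
  · rw [← h2]
    exact g.symm_apply_apply x
  · rw [← h3]
    exact g.symm_apply_apply y

theorem SamePair.trans {x y x' y' x'' y'' : D} (h : SamePair L c x y x' y')
    (h' : SamePair L c x' y' x'' y'') : SamePair L c x y x'' y'' := by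
  obtain ⟨g, h1, h2, h3⟩ := h
  obtain ⟨g', h1', h2', h3'⟩ := h'
  refine ⟨g'.comp g, fun j => ?_, ?_, ?_⟩
  · show g' (g (c j)) = c j
    rw [h1, h1']
  · show g' (g x) = x''
    rw [h2, h2']
  · show g' (g y) = y''
    rw [h3, h3']

/-- A chain of three elements in which all pairs have the same type. -/
theorem exists_chain [L.IsRelational] [Finite (Σ k, L.Relations k)] [Infinite D]
    (hD : L.IsUltrahomogeneous D) (c : Fin n → D)
    (hlt : IsStrictTotalOrder D lt) (hinv : ∀ (g : D ≃[L] D) (x y : D), lt (g x) (g y) ↔ lt x y) :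
    ∃ v : Fin 3 → D, lt (v 0) (v 1) ∧ lt (v 1) (v 2) ∧ lt (v 0) (v 2) ∧
      SamePair L c (v 0) (v 1) (v 1) (v 2) ∧ SamePair L c (v 0) (v 1) (v 0) (v 2) := by
  let u : ℕ ↪ D := Infinite.natEmbedding D
  have := finite_types (L := L) hD c 2
  obtain ⟨i, j, k, hij, hjk, h1, h2⟩ := triangle fun i j => tp L c ![u i, u j]
  have key : ∀ x y x' y' : D, tp L c ![x, y] = tp L c ![x', y'] → SamePair L c x y x' y' := by
    intro x y x' y' h
    obtain ⟨g, hg1, hg2⟩ := Quotient.exact h
    exact ⟨g, hg1, hg2 0, hg2 1⟩
  have s1 := key _ _ _ _ h1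
  have s2 := key _ _ _ _ h2
  have hne : u i ≠ u j := fun h => hij.ne (u.injective h)
  have tr : ∀ {x y x' y' : D}, SamePair L c x y x' y' → lt x y → lt x' y' := by
    rintro x y x' y' ⟨g, -, rfl, rfl⟩ h
    exact (hinv g x y).2 h
  have htri : lt (u i) (u j) ∨ u i = u j ∨ lt (u j) (u i) := by
    by_contra hcon
    push Not at hcon
    exact hcon.2.1 (hlt.toTrichotomous.trichotomous _ _ hcon.1 hcon.2.2)
  rcases htri with h | h | h
  · refine ⟨![u i, u j, u k], h, tr s2 h, tr s1 h, s2, s1⟩
  · exact absurd h hne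
  · refine ⟨![u k, u j, u i], tr s2.swap h, h, tr s1.swap h, ?_, ?_⟩
    · show SamePair L c (u k) (u j) (u j) (u i)
      exact s2.swap.symm
    · show SamePair L c (u k) (u j) (u k) (u i)
      exact s2.swap.symm.trans s1.swap


/-- The tuple whose first entry is `x` and whose other entries are `y`. -/
def pairTuple (m : ℕ) (x y : D) : Fin m → D := fun i => if (i : ℕ) = 0 then x else y

theorem pair_type {m : ℕ} {x y x' y' : D} (h : SamePair L c x y x' y') :
    SameType L c (pairTuple m x y) (pairTuple m x' y') := by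
  obtain ⟨g, h1, h2, h3⟩ := h
  refine ⟨g, h1, fun i => ?_⟩
  unfold pairTuple
  split
  · exact h2
  · exact h3

/-- An operation applied to tuples of the form `(x, y, ..., y)`. -/
theorem map_pair {m k : ℕ} (f : (Fin k → D) → D) (x y : Fin k → D) :
    (fun i => f fun j => pairTuple m (x j) (y j) i) = pairTuple m (f x) (f y) := by
  funext i
  unfold pairTuple
  split <;> rfl

theorem canonical_pair {k : ℕ} {f : (Fin k → D) → D} (hf : Canonical L c f)
    (x y x' y' : Fin k → D) (h : ∀ j, SamePair L c (x j) (y j) (x' j) (y' j)) :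
    SamePair L c (f x) (f y) (f x') (f y') := by
  have h1 := hf 2 (fun j => pairTuple 2 (x j) (y j)) (fun j => pairTuple 2 (x' j) (y' j))
    fun j => pair_type (h j)
  rw [map_pair, map_pair] at h1
  obtain ⟨g, h2, h3⟩ := h1
  exact ⟨g, h2, h3 0, h3 1⟩

section Signs

variable (v : Fin 3 → D) (lt)

/-- The comparison of the two values of `f` at tuples with entries in `{v 0, v 1}`, where `ε` tells
in which coordinates the first tuple has the smaller entry. -/
def Sg {k : ℕ} (f : (Fin k → D) → D) (ε : Fin k → Bool) : Prop :=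
  lt (f fun j => if ε j then v 0 else v 1) (f fun j => if ε j then v 1 else v 0)

end Signs

/-- The data which the chain provides. -/
structure Chain (L : FirstOrder.Language.{0, 0}) [L.Structure D] (c : Fin n → D)
    (lt : D → D → Prop) (v : Fin 3 → D) : Prop where
  hlt : IsStrictTotalOrder D lt
  inv : ∀ (g : D ≃[L] D) (x y : D), lt (g x) (g y) ↔ lt x y
  l01 : lt (v 0) (v 1)
  l12 : lt (v 1) (v 2)
  l02 : lt (v 0) (v 2)
  s12 : SamePair L c (v 0) (v 1) (v 1) (v 2)
  s02 : SamePair L c (v 0) (v 1) (v 0) (v 2)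

namespace Chain

variable {v : Fin 3 → D}

theorem lt_iff (h : Chain L c lt v) {x y x' y' : D} (h' : SamePair L c x y x' y') :
    lt x y ↔ lt x' y' := by
  obtain ⟨g, -, rfl, rfl⟩ := h'
  exact (h.inv g x y).symm

theorem refl_pair (x y : D) : SamePair L c x y x y :=
  ⟨FirstOrder.Language.Equiv.refl L D, fun _ => rfl, rfl, rfl⟩

/-- The type of a pair of distinct elements of the chain depends only on their order. -/
theorem pair (h : Chain L c lt v) (a b : Fin 3) (hab : a ≠ b) :
    SamePair L c (if a < b then v 0 else v 1) (if a < b then v 1 else v 0) (v a) (v b) := by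
  have h0 := refl_pair (L := L) (c := c) (v 0) (v 1)
  have h1 := h.s12
  have h2 := h.s02
  have h0' := h0.swap
  have h1' := h1.swap
  have h2' := h2.swap
  fin_cases a <;> fin_cases b <;> simp_all

theorem sg_iff (h : Chain L c lt v) {k : ℕ} {f : (Fin k → D) → D} (hf : Canonical L c f)
    (p q : Fin k → Fin 3) (hpq : ∀ j, p j ≠ q j) (ε : Fin k → Bool)
    (hε : ∀ j, ε j = true ↔ p j < q j) :
    Sg lt v f ε ↔ lt (f fun j => v (p j)) (f fun j => v (q j)) := by
  refine h.lt_iff (canonical_pair hf _ _ _ _ fun j => ?_)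
  have h1 := h.pair (p j) (q j) (hpq j)
  by_cases hj : ε j = true
  · have h2 := (hε j).1 hj
    simpa [hj, h2] using h1
  · have h2 : ¬ p j < q j := fun h3 => hj ((hε j).2 h3)
    simpa [hj, h2] using h1

variable {k : ℕ} {f : (Fin k → D) → D}

/-- The operation preserves the order. -/
def Mono (lt : D → D → Prop) {k : ℕ} (f : (Fin k → D) → D) : Prop :=
  ∀ x y : Fin k → D, (∀ j, lt (x j) (y j)) → lt (f x) (f y)

theorem all_true (h : Chain L c lt v) (hm : Mono lt f) (ε : Fin k → Bool) (hε : ∀ j, ε j = true) :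
    Sg lt v f ε := by
  refine hm _ _ fun j => ?_
  simpa [hε j] using h.l01

theorem not_all_false (h : Chain L c lt v) (hm : Mono lt f) (ε : Fin k → Bool)
    (hε : ∀ j, ε j = false) : ¬ Sg lt v f ε := by
  intro h1
  have h2 : lt (f fun j => if ε j then v 1 else v 0) (f fun j => if ε j then v 0 else v 1) := by
    refine hm _ _ fun j => ?_
    simpa [hε j] using h.l01
  have := h.hlt
  exact irrefl_of lt _ (trans_of lt h1 h2)

theorem comp (h : Chain L c lt v) (hf : Canonical L c f) {ε δ η : Fin k → Bool}
    (h1 : Sg lt v f ε) (h2 : Sg lt v f δ) (h3 : ∀ j, ε j = δ j → η j = ε j) : Sg lt v f η := by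
  classical
  have := h.hlt
  -- positions of the three points in every coordinate
  have key : ∀ e d t : Bool, (e = d → t = e) → ∃ a b z : Fin 3, a ≠ b ∧ b ≠ z ∧ a ≠ z ∧
      (e = true ↔ a < b) ∧ (d = true ↔ b < z) ∧ (t = true ↔ a < z) := by
    decide
  choose a b z hab hbz haz ha hb hz using fun j => key (ε j) (δ j) (η j) (h3 j)
  have e1 := (h.sg_iff hf a b hab ε ha).1 h1
  have e2 := (h.sg_iff hf b z hbz δ hb).1 h2
  exact (h.sg_iff hf a z haz η hz).2 (trans_of lt e1 e2)

theorem total (h : Chain L c lt v) (hf : Canonical L c f) (hm : Mono lt f) (ε : Fin k → Bool) :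
    Sg lt v f ε ∨ Sg lt v f fun j => !ε j := by
  classical
  have := h.hlt
  by_contra hcon
  push Not at hcon
  obtain ⟨h1, h2⟩ := hcon
  -- then the values are equal at all tuples with these signs
  have heq : ∀ p q : Fin k → Fin 3, (∀ j, p j ≠ q j) → (∀ j, ε j = true ↔ p j < q j) →
      (f fun j => v (p j)) = f fun j => v (q j) := by
    intro p q hpq hε
    rcases trichotomous_of lt (f fun j => v (p j)) (f fun j => v (q j)) with h3 | h3 | h3
    · exact absurd ((h.sg_iff hf p q hpq ε hε).2 h3) h1
    · exact h3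
    · refine absurd ((h.sg_iff hf q p (fun j => (hpq j).symm) (fun j => !ε j) fun j => ?_).2 h3) h2
      have h4 := hε j
      have h5 := hpq j
      by_cases h6 : ε j = true
      · have h7 := h4.1 h6
        simp [h6, h7.le]
      · have h7 : ¬ p j < q j := fun h => h6 (h4.2 h)
        simp only [Bool.not_eq_true] at h6
        simp only [h6, Bool.not_false, true_iff]
        exact lt_of_le_of_ne (not_lt.1 h7) h5.symm
  have key : ∀ e : Bool, ∃ a b z : Fin 3, a < b ∧ a ≠ z ∧ b ≠ z ∧
      (e = true ↔ a < z) ∧ (e = true ↔ b < z) := by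
    decide
  choose a b z hab haz hbz ha hb using fun j => key (ε j)
  have h3 := heq a z haz ha
  have h4 := heq b z hbz hb
  have h5 : lt (f fun j => v (a j)) (f fun j => v (b j)) := by
    refine hm _ _ fun j => ?_
    have h6 := h.pair (a j) (b j) (hab j).ne
    have h7 := (h.lt_iff h6).1 (by simpa [hab j] using h.l01)
    exact h7
  rw [h3, ← h4] at h5
  exact irrefl_of lt _ h5

/-- The signs of three columns of not-all-equal triples are not all equal. -/
theorem nae (h : Chain L c lt v) (hf : Canonical L c f) (hm : Mono lt f)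
    (e : Fin k → Fin 3 → Bool) (he : ∀ j, NAE (e j 0) (e j 1) (e j 2)) :
    ¬ ((Sg lt v f (fun j => e j 0) ↔ Sg lt v f fun j => e j 1) ∧
      (Sg lt v f (fun j => e j 1) ↔ Sg lt v f fun j => e j 2)) := by
  rintro ⟨h1, h2⟩
  have main : ∀ e' : Fin k → Fin 3 → Bool, (∀ j, NAE (e' j 0) (e' j 1) (e' j 2)) →
      Sg lt v f (fun j => e' j 0) → (Sg lt v f fun j => e' j 1) →
      (Sg lt v f fun j => e' j 2) → False := by
    intro e' he' a0 a1 a2
    have h3 : Sg lt v f fun j => e' j 0 && e' j 1 :=
      h.comp hf a0 a1 fun j hj => by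
        simp [hj]
    have h4 : Sg lt v f fun _ => false :=
      h.comp hf h3 a2 fun j hj => by
        have h5 := he' j
        unfold NAE at h5
        revert hj h5
        generalize e' j 0 = x
        generalize e' j 1 = y
        generalize e' j 2 = z
        revert x y z
        decide
    exact h.not_all_false hm _ (fun _ => rfl) h4
  by_cases h0 : Sg lt v f fun j => e j 0
  · exact main e he h0 (h1.1 h0) (h2.1 (h1.1 h0))
  · have h0' := (h.total hf hm _).resolve_left h0
    have h1' := (h.total hf hm _).resolve_left fun h3 => h0 (h1.2 h3)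
    have h2' := (h.total hf hm _).resolve_left fun h3 => h0 (h1.2 (h2.2 h3))
    refine main (fun j x => !e j x) (fun j => ?_) h0' h1' h2'
    have h5 := he j
    unfold NAE at h5 ⊢
    simpa using h5

end Chain


theorem Canonical.comp {l : ℕ} {κ : Fin l → ℕ} {f : (Fin l → D) → D} (hf : Canonical L c f)
    (g : ∀ j, (Fin (κ j) → D) → D) (hg : ∀ j, Canonical L c (g j)) :
    Canonical L c fun z : Fin (∑ j, κ j) → D =>
      f fun j => g j fun s => z (finSigmaFinEquiv ⟨j, s⟩) := by
  intro m a b h
  exact hf m (fun j i => g j fun s => a (finSigmaFinEquiv ⟨j, s⟩) i)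
    (fun j i => g j fun s => b (finSigmaFinEquiv ⟨j, s⟩) i) fun j =>
      hg j m (fun s => a (finSigmaFinEquiv ⟨j, s⟩)) (fun s => b (finSigmaFinEquiv ⟨j, s⟩))
        fun s => h _

theorem Preserves.comp {E : Type} {r l : ℕ} {R : Set (Fin r → E)} {κ : Fin l → ℕ}
    {f : (Fin l → E) → E} (hf : Preserves f R) (g : ∀ j, (Fin (κ j) → E) → E)
    (hg : ∀ j, Preserves (g j) R) :
    Preserves (fun z : Fin (∑ j, κ j) → E =>
      f fun j => g j fun s => z (finSigmaFinEquiv ⟨j, s⟩)) R := by
  intro t ht
  exact hf (fun j i => g j fun s => t (finSigmaFinEquiv ⟨j, s⟩) i) fun j =>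
    hg j (fun s => t (finSigmaFinEquiv ⟨j, s⟩)) fun s => ht _

variable {Γ : Set (Σ r : ℕ, Set (Fin r → D))} {v : Fin 3 → D}

/-- The tuples that represent the two truth values. -/
def val (m : ℕ) (v : Fin 3 → D) (e : Bool) : Fin m → D :=
  pairTuple m (if e then v 0 else v 1) (if e then v 1 else v 0)

/-- The ternary relation on types generated by the not-all-equal triples. -/
def gen (L : FirstOrder.Language.{0, 0}) [L.Structure D] (c : Fin n → D)
    (Γ : Set (Σ r : ℕ, Set (Fin r → D))) (m : ℕ) (v : Fin 3 → D) : Set (Fin 3 → Types L c m) :=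
  {p | ∃ (k : ℕ) (f : (Fin k → D) → D) (e : Fin k → Fin 3 → Bool), Canonical L c f ∧
    (∀ R ∈ Γ, Preserves f R.2) ∧ (∀ j, NAE (e j 0) (e j 1) (e j 2)) ∧
    ∀ x, p x = tp L c fun i => f fun j => val m v (e j x) i}

theorem gen_inv {m k : ℕ} {φ : (Fin k → Types L c m) → Types L c m}
    (hφ : φ ∈ TypeClone L c Γ m k) : Preserves φ (gen L c Γ m v) := by
  obtain ⟨f, hf, hΓ, hφ⟩ := hφ
  intro t ht
  choose κ g e hg hgΓ he hp using ht
  refine ⟨∑ j, κ j, fun z => f fun j => g j fun s => z (finSigmaFinEquiv ⟨j, s⟩),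
    fun l => e (finSigmaFinEquiv.symm l).1 (finSigmaFinEquiv.symm l).2, hf.comp g hg,
    fun R hR => (hΓ R hR).comp g fun j => hgΓ j R hR, fun l => he _ _, fun x => ?_⟩
  have h1 : (fun j => t j x) = fun j => tp L c fun i => g j fun s => val m v (e j s x) i := by
    funext j
    exact hp j x
  show φ (fun j => t j x) = _
  rw [h1, hφ]
  congr 1
  funext i
  congr 1
  funext j
  congr 1
  funext s
  show val m v (e j s x) i = val m v (e (finSigmaFinEquiv.symm (finSigmaFinEquiv ⟨j, s⟩)).fst
    (finSigmaFinEquiv.symm (finSigmaFinEquiv ⟨j, s⟩)).snd x) i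
  rw [_root_.Equiv.symm_apply_apply]

theorem core [L.IsRelational] [Finite (Σ k, L.Relations k)] [Infinite D]
    (hD : L.IsUltrahomogeneous D) (hΓ : IsReduct L Γ)
    (hlt : IsStrictTotalOrder D lt) (hmem : (⟨2, {t | lt (t 0) (t 1)}⟩ : Σ r : ℕ, Set (Fin r → D)) ∈ Γ)
    {m : ℕ} (hm : 2 ≤ m) (c : Fin n → D) :
    ∃ R : Set (Fin 3 → Types L c m), (∀ k, ∀ φ ∈ TypeClone L c Γ m k, Preserves φ R) ∧
      (∃ h : Bool → Types L c m, ∀ e : Fin 3 → Bool, NAE (e 0) (e 1) (e 2) →
        (fun x => h (e x)) ∈ R) ∧
      ∃ h : Types L c m → Bool, ∀ p ∈ R, NAE (h (p 0)) (h (p 1)) (h (p 2)) := by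
  classical
  have hinv : ∀ (g : D ≃[L] D) (x y : D), lt (g x) (g y) ↔ lt x y := by
    intro g x y
    exact definable_inv (hΓ _ hmem) g ![x, y]
  obtain ⟨v, h1, h2, h3, h4, h5⟩ := exists_chain hD c hlt hinv
  have hv : Chain L c lt v := ⟨hlt, hinv, h1, h2, h3, h4, h5⟩
  refine ⟨gen L c Γ m v, fun k φ hφ => gen_inv hφ,
    ⟨fun e => tp L c (val m v e), fun e he => ?_⟩, ?_⟩
  · refine ⟨1, fun z => z 0, fun _ => e, ?_, ?_, fun _ => he, fun x => rfl⟩
    · intro m' a b h
      exact h 0
    · intro R _ t ht
      exact ht 0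
  · let z0 : Fin m := ⟨0, by omega⟩
    let z1 : Fin m := ⟨1, by omega⟩
    let sgn : Types L c m → Bool := Quotient.lift (fun a : Fin m → D => decide (lt (a z0) (a z1)))
      (by
        rintro a b ⟨g, -, h6⟩
        have h7 := hinv g (a z0) (a z1)
        rw [h6, h6] at h7
        simp [h7])
    refine ⟨sgn, ?_⟩
    rintro p ⟨k, f, e, hf, hfΓ, he, hp⟩
    have hmono : Chain.Mono lt f := by
      intro x y hxy
      exact hfΓ _ hmem (fun j => ![x j, y j]) hxy
    have h6 : ∀ x, sgn (p x) = true ↔ Sg lt v f fun j => e j x := by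
      intro x
      rw [hp x]
      show decide (lt (f fun j => val m v (e j x) z0) (f fun j => val m v (e j x) z1)) = true ↔ _
      rw [decide_eq_true_iff]
      rfl
    have h7 := hv.nae hf hmono e he
    unfold NAE
    rintro ⟨h8, h9⟩
    refine h7 ⟨?_, ?_⟩
    · rw [← h6, ← h6, h8]
    · rw [← h6, ← h6, h9]

end Proof


/-- A finite directed graph maps to `(ℚ; <)` if and only if it has no directed cycle. -/
theorem acyclic_iff (V : Type) [Finite V] (E : V → V → Prop) :
    (∃ h : V → ℚ, ∀ u w, E u w → h u < h w) ↔ ∀ w, ¬ Relation.TransGen E w w := by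
  classical
  constructor
  · rintro ⟨h, hh⟩ w hw
    have h1 : ∀ u w, Relation.TransGen E u w → h u < h w := by
      intro u w hu
      induction hu with
      | single h2 => exact hh _ _ h2
      | tail _ h2 ih => exact ih.trans (hh _ _ h2)
    exact lt_irrefl _ (h1 w w hw)
  · intro h
    have := Fintype.ofFinite V
    refine ⟨fun w => ((Finset.univ.filter fun u => Relation.TransGen E u w).card : ℚ),
      fun u w huw => ?_⟩
    have h1 : (Finset.univ.filter fun x => Relation.TransGen E x u).card <
        (Finset.univ.filter fun x => Relation.TransGen E x w).card := by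
      refine Finset.card_lt_card ⟨fun x hx => ?_, fun hsub => ?_⟩
      · simp only [Finset.mem_filter, Finset.mem_univ, true_and] at hx ⊢
        exact hx.tail huw
      · have h2 : u ∈ Finset.univ.filter fun x => Relation.TransGen E x w := by
          simp only [Finset.mem_filter, Finset.mem_univ, true_and]
          exact Relation.TransGen.single huw
        have h3 := hsub h2
        simp only [Finset.mem_filter, Finset.mem_univ, true_and] at h3
        exact h u h3
    show (((Finset.univ.filter fun x => Relation.TransGen E x u).card : ℕ) : ℚ) <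
      ((Finset.univ.filter fun x => Relation.TransGen E x w).card : ℕ)
    exact_mod_cast h1

/-- The relation `<` on the rational numbers. -/
def ratLess : Set (Fin 2 → ℚ) := {t | t 0 < t 1}

attribute [local instance] orderStructure

set_option backward.isDefEq.respectTransparency false in
theorem rat_homogeneous : Language.order.IsUltrahomogeneous ℚ :=
  (isFraisseLimit_of_countable_nonempty_dlo ℚ).ultrahomogeneous

set_option backward.isDefEq.respectTransparency false in
theorem rat_reduct : IsReduct (D := ℚ) Language.order {⟨2, ratLess⟩} := by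
  rintro R rfl
  refine Set.empty_definable_iff.2 ⟨(leSymb.formula₂ (Term.var 0) (Term.var 1)) ⊓
    (leSymb.formula₂ (Term.var 1) (Term.var 0)).not, ?_⟩
  ext t
  have h1 := relMap_leSymb (L := Language.order) (M := ℚ) ![t 0, t 1]
  have h2 := relMap_leSymb (L := Language.order) (M := ℚ) ![t 1, t 0]
  simp only [ratLess, mem_ofPred_eq, Formula.realize_inf, Formula.realize_not,
    Formula.realize_rel₂, Term.realize_var]
  rw [h1, h2]
  simp only [Matrix.cons_val_zero, Matrix.cons_val_one, not_le]
  exact ⟨fun h => ⟨h.le, h⟩, fun h => h.2⟩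

instance finite_order_relations : Finite (Σ k, Language.order.Relations k) := by
  have h : ∀ p : Σ k, Language.order.Relations k, p = ⟨2, leSymb⟩ := by
    rintro ⟨k, a⟩
    cases a
    rfl
  exact Finite.of_injective (fun _ => ()) fun p q _ => (h p).trans (h q).symm

set_option backward.isDefEq.respectTransparency false in
/-- Part 1: let `D` be an infinite homogeneous structure in a finite relational language, let the
relations in `Γ` be first-order definable in it, and let one of them be a strict linear order.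
Then for all constants `c` and all `m ≥ 2` the type clone of `Γ` on the `m`-types over `c`
preserves a relation whose constraint satisfaction problem is not-all-equal satisfiability.
Part 2: `(ℚ; ≤)` is such a structure and `Γ = {<}` such a set of relations, and a finite directed
graph has a homomorphism to `(ℚ; <)` if and only if it has no directed cycle. -/
theorem result :
    (∀ (L : FirstOrder.Language.{0, 0}) [L.IsRelational] [Finite (Σ k, L.Relations k)]
      (D : Type) [Infinite D] [L.Structure D], L.IsUltrahomogeneous D →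
      ∀ Γ : Set (Σ r : ℕ, Set (Fin r → D)), IsReduct L Γ →
      ∀ lt : D → D → Prop, IsStrictTotalOrder D lt →
        (⟨2, {t | lt (t 0) (t 1)}⟩ : Σ r : ℕ, Set (Fin r → D)) ∈ Γ →
      ∀ (n : ℕ) (c : Fin n → D) (m : ℕ), 2 ≤ m → PreservesHardRelation L c Γ m) ∧
    Language.order.IsUltrahomogeneous ℚ ∧ IsReduct (D := ℚ) Language.order {⟨2, ratLess⟩} ∧
    (∀ (n : ℕ) (c : Fin n → ℚ) (m : ℕ), 2 ≤ m →
      PreservesHardRelation Language.order c {⟨2, ratLess⟩} m) ∧
    ∀ (V : Type) [Finite V] (E : V → V → Prop),
      (∃ h : V → ℚ, ∀ u w, E u w → ![h u, h w] ∈ ratLess) ↔ ∀ w, ¬ Relation.TransGen E w w := by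
  have key : ∀ (L : FirstOrder.Language.{0, 0}) [L.IsRelational] [Finite (Σ k, L.Relations k)]
      (D : Type) [Infinite D] [L.Structure D], L.IsUltrahomogeneous D →
      ∀ Γ : Set (Σ r : ℕ, Set (Fin r → D)), IsReduct L Γ →
      ∀ lt : D → D → Prop, IsStrictTotalOrder D lt →
        (⟨2, {t | lt (t 0) (t 1)}⟩ : Σ r : ℕ, Set (Fin r → D)) ∈ Γ →
      ∀ (n : ℕ) (c : Fin n → D) (m : ℕ), 2 ≤ m → PreservesHardRelation L c Γ m := by
    intro L _ _ D _ _ hD Γ hΓ lt hlt hmem n c m hm
    obtain ⟨R, h1, ⟨h, h2⟩, ⟨h', h3⟩⟩ := core hD hΓ hlt hmem hm c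
    refine ⟨finite_types hD c m, R, h1, fun V C => ⟨?_, ?_⟩⟩
    · rintro ⟨s, hs⟩
      exact ⟨fun v => h' (s v), fun t ht => h3 _ (hs t ht)⟩
    · rintro ⟨s, hs⟩
      exact ⟨fun v => h (s v), fun t ht => h2 (fun x => s (t x)) (hs t ht)⟩
  refine ⟨key, rat_homogeneous, rat_reduct, ?_, ?_⟩
  · intro n c m hm
    exact key Language.order ℚ rat_homogeneous _ rat_reduct (fun x y => x < y) inferInstance rfl
      n c m hm
  · intro V _ E
    rw [← acyclic_iff V E]
    rfl

end Pool.Agent.Results.MP_436c39_lc.LinearOrderReducts
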